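import Pool.Agent.U97.NC.Fin

set_option autoImplicit false

/-!
# The Vaught dichotomy for structures with finite crossing components

The countable-or-perfect dichotomy for the action of the symmetric group of `ℕ` on invariant Borel
classes of ordered countable structures with relations of arbitrary arities, whose tuples cross each
other only in finite clusters.

Two finite subsets `S`, `T` of a linear order *cross* if there are `u₁ < u₂ < u₃ < u₄` with
`u₁, u₃ ∈ S` and `u₂, u₄ ∈ T` or conversely. Let `E j` be relations of arbitrary arities. The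
*crossing component* of a tuple consists of the tuples (of those `E j` that are not determined by
the order alone) that can be reached from it by a chain of tuples of which consecutive ones cross.
For example, all components are finite if the tuples do not cross each other at all, as for nested
words, for planar forests of infinite height with arbitrary nesting, and for non-crossing partitions
into finite sets with arbitrary relations on the blocks.

Let `B` be an isomorphism-invariant Borel class of countable structures, with countably many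
relations, of arbitrary arities, and suppose that on each structure in `B` a linear order and
relations `E j` can be chosen from a fixed countable list, defined in a Borel and equivariant way
from finitely many parameters, such that all crossing components are finite and such that, whenever a
relation of the structure holds for a tuple, this is implied by the order of the entries and the
truth values of finitely many `E j` on the entries. Then `B` has countably many isomorphism types or
contains a perfect set of pairwise non-isomorphic structures.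

The proof: the unions of the finite components do not cross each other. Each union is replaced by
the polygon formed by its consecutive points, and labelled arcs (the sides of the polygon, and the
arc that joins its ends, which carries the facts) determine all `E j`. The arcs do not cross, and
they become new points of a structure with the two relations to the left and inside, on the
points and arcs, which is completely decomposable (built from two-point structures by substitution
and infinite iteration); for such structures the dichotomy is proved in the starting files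
(`Pool.Agent.H533R2.VS`).
-/

namespace Pool.Agent.Results.MP_5607ba_lc.FiniteCrossings

/-- Relational structures on `ℕ` with relations of arities `a 0, a 1, ...`. -/
abbrev Str (a : ℕ → ℕ) : Type := (i : ℕ) → (Fin (a i) → ℕ) → Bool

/-- Isomorphism of structures. -/
def Iso {a : ℕ → ℕ} (x y : Str a) : Prop :=
  ∃ σ : Equiv.Perm ℕ, ∀ (i : ℕ) (v : Fin (a i) → ℕ), y i (⇑σ ∘ v) = x i v

/-- Relabelling of a structure by a permutation. -/
def act {a : ℕ → ℕ} (σ : Equiv.Perm ℕ) (x : Str a) : Str a := fun i v => x i (⇑σ.symm ∘ v)

/-- The class `B` has countably many isomorphism types, or there is a continuous family of pairwise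
non-isomorphic members of `B` indexed by the Cantor space. -/
def CountableOrPerfect {a : ℕ → ℕ} (B : Set (Str a)) : Prop :=
  (∃ f : ℕ → Str a, ∀ x ∈ B, ∃ n, Iso (f n) x) ∨
  (∃ g : (ℕ → Bool) → Str a, Continuous g ∧ (∀ c, g c ∈ B) ∧ ∀ c d, Iso (g c) (g d) → c = d)

/-- `lt` is a strict linear order of `ℕ`. -/
structure StrictLinear (lt : ℕ → ℕ → Prop) : Prop where
  irrefl : ∀ m, ¬ lt m m
  trans : ∀ m n k, lt m n → lt n k → lt m k
  total : ∀ m n, m = n ∨ lt m n ∨ lt n m

/-- The truth value of the relation `P` at a tuple depends only on the order of its entries. -/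
def OrderDetermined (lt : ℕ → ℕ → Prop) {n : ℕ} (P : (Fin n → ℕ) → Prop) : Prop :=
  ∀ v w : Fin n → ℕ, (∀ s t, lt (v s) (v t) ↔ lt (w s) (w t)) → (P v ↔ P w)

/-- `S` is the set of the entries of a tuple in one of the relations `E j` that are not determined
by the order. -/
def Support (lt : ℕ → ℕ → Prop) {b : ℕ → ℕ} (E : (j : ℕ) → (Fin (b j) → ℕ) → Prop)
    (S : Finset ℕ) : Prop :=
  ∃ j, ∃ v : Fin (b j) → ℕ, ¬ OrderDetermined lt (E j) ∧ E j v ∧ ∀ u, u ∈ S ↔ ∃ s, v s = u

/-- The sets `S` and `T` cross: there are `u₁ < u₂ < u₃ < u₄`, alternately in `S` and in `T`. -/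
def Cross (lt : ℕ → ℕ → Prop) (S T : Finset ℕ) : Prop :=
  ∃ u₁ u₂ u₃ u₄, lt u₁ u₂ ∧ lt u₂ u₃ ∧ lt u₃ u₄ ∧
    ((u₁ ∈ S ∧ u₃ ∈ S ∧ u₂ ∈ T ∧ u₄ ∈ T) ∨ (u₁ ∈ T ∧ u₃ ∈ T ∧ u₂ ∈ S ∧ u₄ ∈ S))

/-- The supports `S` and `T` are joined by a finite chain of supports of which consecutive ones
cross. -/
def Linked (lt : ℕ → ℕ → Prop) {b : ℕ → ℕ} (E : (j : ℕ) → (Fin (b j) → ℕ) → Prop) :
    Finset ℕ → Finset ℕ → Prop :=
  Relation.ReflTransGen fun S T => Support lt E S ∧ Support lt E T ∧ Cross lt S T

/-- The crossing component of each support is finite. -/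
def FiniteCrossingComponents (lt : ℕ → ℕ → Prop) {b : ℕ → ℕ}
    (E : (j : ℕ) → (Fin (b j) → ℕ) → Prop) : Prop :=
  ∀ S, Support lt E S → {T | Linked lt E S T}.Finite

/-- The truth of the relation `P` at the tuple `v` is implied by the order of the entries of `v` and
the truth values of the relations `E j`, `j ∈ J`, at the tuples of entries of `v`. -/
def Implied (lt : ℕ → ℕ → Prop) {b : ℕ → ℕ} (E : (j : ℕ) → (Fin (b j) → ℕ) → Prop) {n : ℕ}
    (P : (Fin n → ℕ) → Prop) (v : Fin n → ℕ) (J : Finset ℕ) : Prop :=
  ∀ w : Fin n → ℕ, (∀ s t, lt (v s) (v t) ↔ lt (w s) (w t)) →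
    (∀ j ∈ J, ∀ c : Fin (b j) → Fin n, E j (v ∘ c) ↔ E j (w ∘ c)) → P w

/-- Relations of arity `n` on structures which are defined from finitely many parameters in a Borel
way that commutes with the permutations of `ℕ` (by the theorem of Lopez-Escobar, these are the
relations defined by formulas of `L_ω₁ω`). -/
structure Definable {a : ℕ → ℕ} {n : ℕ} (E : List ℕ → Str a → (Fin n → ℕ) → Prop) : Prop where
  borel : ∀ p v, MeasurableSet {x | E p x v}
  equivariant : ∀ p x (σ : Equiv.Perm ℕ) v, E (p.map σ) (act σ x) (⇑σ ∘ v) ↔ E p x v

theorem ncc_iff {b : ℕ → ℕ} {lt : ℕ → ℕ → Prop} {y : Pool.Agent.H533R2.VO.RS b}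
    {E : (j : ℕ) → (Fin (b j) → ℕ) → Prop} (h : ∀ j v, y j v = true ↔ E j v)
    (hl : StrictLinear lt) (hf : FiniteCrossingComponents lt E) : Pool.Agent.U97.NC.FC lt y := by
  have h1 : ∀ S, Pool.Agent.U97.NC.Su lt y S ↔ Support lt E S := by
    intro S
    unfold Pool.Agent.U97.NC.Su Pool.Agent.U97.NC.OD' Support OrderDetermined
    simp only [h]
  refine ⟨⟨hl.irrefl, hl.trans, hl.total⟩, fun S hS => ?_⟩
  have h2 := hf S ((h1 S).1 hS)
  refine h2.subset fun T hT => ?_
  change Relation.ReflTransGen _ S T at hT
  show Relation.ReflTransGen _ S T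
  induction hT with
  | refl => exact Relation.ReflTransGen.refl
  | tail _ h3 ih => exact ih.tail ⟨(h1 _).1 h3.1, (h1 _).1 h3.2.1, h3.2.2⟩

theorem result :
    ∀ (a : ℕ → ℕ) (b : ℕ → ℕ → ℕ) (D : ℕ → List ℕ → Str a → (Fin 2 → ℕ) → Prop)
      (E : (k j : ℕ) → List ℕ → Str a → (Fin (b k j) → ℕ) → Prop),
      (∀ k, Definable (D k)) → (∀ k j, Definable (E k j)) →
      ∀ B : Set (Str a), MeasurableSet B → (∀ x y, Iso x y → (x ∈ B ↔ y ∈ B)) →
        (∀ x ∈ B, ∃ k p, StrictLinear (fun m n => D k p x ![m, n]) ∧
          FiniteCrossingComponents (fun m n => D k p x ![m, n]) (fun j => E k j p x) ∧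
          ∀ i v, x i v = true → ∃ J : Finset ℕ,
            Implied (fun m n => D k p x ![m, n]) (fun j => E k j p x) (fun w => x i w = true) v J) →
        CountableOrPerfect B := by
  classical
  intro a b D E hD hE B hB hi h
  refine Pool.Agent.U97.NC.vc_FX (D := fun k p x m n => D k p x ![m, n]) (E := E)
    (fun k => ⟨fun p m n => (hD k).borel p ![m, n], fun p x σ m n => ?_⟩)
    (fun k j => ⟨(hE k j).borel, (hE k j).equivariant⟩) B hB hi fun x hx => ?_
  · have h1 := (hD k).equivariant p x σ ![m, n]
    have e : (⇑σ ∘ ![m, n]) = ![σ m, σ n] := by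
      funext j
      fin_cases j <;> rfl
    rw [e] at h1
    exact h1
  · obtain ⟨k, p, h1, h2, h3⟩ := h x hx
    have e : ∀ j v, Pool.Agent.U97.NC.ax (E k) p x j v = true ↔ E k j p x v := by
      intro j v
      unfold Pool.Agent.U97.NC.ax
      rw [decide_eq_true_eq]
    refine ⟨k, p, ncc_iff e h1 h2, fun i v hv => ?_⟩
    obtain ⟨J, h4⟩ := h3 i v hv
    refine ⟨J, fun w h5 h6 => h4 w h5 fun j hj c => ?_⟩
    exact ((e j (v ∘ c)).symm.trans (h6 j hj c)).trans (e j (w ∘ c))

end Pool.Agent.Results.MP_5607ba_lc.FiniteCrossings
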