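import Pool.Agent.U105.LB.Asm

set_option autoImplicit false

/-!
# Definable decompositions of structures: all but finitely many blocks are in a countable list

Let `Sym(ℕ)` act on the structures with universe `ℕ` in a countable relational language, and let `B` be
an arbitrary invariant Borel set. Let `δ` be a Borel and equivariant way to decompose structures: `δ x`
consists of an equivalence relation, whose classes are called blocks, and of a colouring of the
elements. We say that `δ x` decomposes `x` if the truth value of a relation at a tuple which meets two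
blocks depends only on the blocks and the colours of its entries. (Examples: disjoint unions,
ordered sums, lexicographic sums, and all generalised sums over arbitrary index structures.)

**Theorem.** Either `B` contains a perfect set of pairwise nonisomorphic structures, or there is a
COUNTABLE list of blocks such that all but finitely many blocks of each member of `B` which is
decomposed by `δ` are isomorphic to blocks in the list. There is no hypothesis on the blocks or on the
index structures.

So in a class which violates the countable-or-perfect dichotomy, for every definable decomposition,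
almost all parts of each structure are among countably many: only finitely many are exceptional.

Proof. Isomorphism of blocks is an analytic equivalence relation `E`. The set `A` of all pairs of an
index structure and a sequence of blocks such that the sum is in `B` is Borel (it is analytic and
coanalytic, since sums exist and are unique up to isomorphism), and closed under replacing blocks by
isomorphic ones. One applies the theorem on families of classes of analytic equivalence relations
behind `MP_5607ba_lc.FinitelyManyOrbits` to `A`, and lifts perfect families of sequences of blocks to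
structures by Silver's theorem.
-/

namespace Pool.Agent.Results.MP_5607ba_lc.FinitelyManyBlocks

open MeasureTheory Set

/-! ### Structures and decompositions -/

/-- Structures with universe `ℕ`; the relation `i` has arity `a i`. -/
abbrev Str {Idx : Type} (a : Idx → ℕ) : Type := (i : Idx) → (Fin (a i) → ℕ) → Bool

/-- `σ` is an isomorphism from `x` to `y`. -/
def IsIso {Idx : Type} {a : Idx → ℕ} (σ : Equiv.Perm ℕ) (x y : Str a) : Prop :=
  ∀ (i : Idx) (t : Fin (a i) → ℕ), x i t = y i (fun k => σ (t k))

/-- `B` contains a perfect set of pairwise non-isomorphic structures. -/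
def PerfectSet {Idx : Type} {a : Idx → ℕ} (B : Set (Str a)) : Prop :=
  ∃ f : (ℕ → Bool) → Str a, Continuous f ∧ (∀ b, f b ∈ B) ∧
    ∀ b b', (∃ σ, IsIso σ (f b) (f b')) → b = b'

/-- `d.1` is an equivalence relation, and the truth value of each relation of `x` at a tuple which
meets two classes depends only on the classes and the colours `d.2` of the entries. -/
structure Decomposes {Idx : Type} {a : Idx → ℕ} (d : (ℕ → ℕ → Bool) × (ℕ → ℕ)) (x : Str a) :
    Prop where
  refl : ∀ u, d.1 u u = true
  symm : ∀ u w, d.1 u w = true → d.1 w u = true
  trans : ∀ u w z, d.1 u w = true → d.1 w z = true → d.1 u z = true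
  across : ∀ (i : Idx) (t t' : Fin (a i) → ℕ),
    (∀ k, d.1 (t k) (t' k) = true ∧ d.2 (t k) = d.2 (t' k)) →
    (∃ k l, d.1 (t k) (t l) = false) → x i t = x i t'

/-- The block of `u` in `x` and the block of `v` in `y` (for `d` and `e`) are isomorphic, including
the colours. -/
def SameBlock {Idx : Type} {a : Idx → ℕ} (x : Str a) (d : (ℕ → ℕ → Bool) × (ℕ → ℕ)) (u : ℕ)
    (y : Str a) (e : (ℕ → ℕ → Bool) × (ℕ → ℕ)) (v : ℕ) : Prop :=
  ∃ g : ℕ → ℕ, BijOn g {w | d.1 u w = true} {w | e.1 v w = true} ∧
    (∀ (i : Idx) (t : Fin (a i) → ℕ), (∀ k, d.1 u (t k) = true) →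
      x i t = y i (fun k => g (t k))) ∧ ∀ w, d.1 u w = true → e.2 (g w) = d.2 w

/-- **Theorem.** -/
theorem result (Idx : Type) [Countable Idx] (a : Idx → ℕ) (B : Set (Str a)) (hB : MeasurableSet B)
    (hi : ∀ x ∈ B, ∀ y σ, IsIso σ x y → y ∈ B)
    (δ : Str a → (ℕ → ℕ → Bool) × (ℕ → ℕ)) (hδ : Measurable δ)
    (heq : ∀ x y σ, IsIso σ x y → (∀ u w, (δ y).1 (σ u) (σ w) = (δ x).1 u w) ∧
      ∀ u, (δ y).2 (σ u) = (δ x).2 u) :
    PerfectSet B ∨ ∃ D : Set (Str a × ℕ), D.Countable ∧ ∀ x ∈ B, Decomposes (δ x) x →
      ∃ s : Finset ℕ, ∀ u, (∃ d ∈ D, SameBlock x (δ x) u d.1 (δ d.1) d.2) ∨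
        ∃ v ∈ s, (δ x).1 v u = true := by
  rcases Pool.Agent.U105.LB.delta_main B hB (fun x y σ h hx => hi x hx y σ h) δ hδ
    (fun x y σ h => heq x y σ h) with h | ⟨D, hD, hD2⟩
  · exact Or.inl h
  · refine Or.inr ⟨D, hD, fun x hx hd => ?_⟩
    exact hD2 x hx ⟨hd.refl, hd.symm, hd.trans⟩ hd.across

end Pool.Agent.Results.MP_5607ba_lc.FinitelyManyBlocks
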