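import Pool.Agent.U105.LB.Fin
import Pool.Agent.N649.WL.Wr

set_option autoImplicit false

/-!
# Families of orbits of an arbitrary Polish group: only finitely many exceptions

Let `G` be an ARBITRARY Polish group, acting in a Borel way on `X`; its action may violate the
countable-or-perfect dichotomy. We consider the action of the wreath product of `G` and `Sym(ℕ)` on
the sequences in `X` (`SeqOrbit G`), and more generally families of points of `X` indexed by the
elements of countable structures, up to the action of `G` on each label.

**Dichotomy.** Every invariant Borel set `A` of sequences such that each label of each member of `A`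
is equivalent to infinitely many labels of some member of `A` (not necessarily the same one; or is in
an invariant Borel set `Z` for which the dichotomy holds) has countably many orbits or perfectly many.

**Structure theorem.** Let `A` be any invariant Borel set. Then `A` has perfectly many inequivalent
members, or there is a COUNTABLE set `D` of points such that
(a) every member of `A` has only finitely many labels outside the orbits of the points of `D`;
(b) no label outside these orbits is in `Z`;
(c) only countably many inequivalent members of `A` have all their labels in the orbits of the points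
of `D`.
The second part of the theorem is the same for families labelled modulo an arbitrary analytic
equivalence relation `E`, indexed by a countable set `J` of places; there (c) holds provided that the
dichotomy holds for the same structures of places with colours in `ℕ`.

For `Z = X` this is the starting result `MP_5607ba_lc.LabelledStructures`. For `Z = ∅` and sequences it
contains the first part of the starting result `MP_5607ba_lc.InfiniteRepetition`, where `A` is closed
under infinite repetition; here `A` is arbitrary.

Idea of the proof. By Novikov separation there is a Borel equivalence relation `F` containing `E` such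
that `A` is closed under replacing labels by `F`-equivalent ones. By Silver's theorem only countably
many `F`-classes contain labels of members of `A`, unless `A` contains perfectly many inequivalent
members. If infinitely many labels of one member of `A` have an `F`-class which consists of
uncountably many `E`-classes, then one replaces the labels at arbitrary subsets of these places by
new, pairwise inequivalent ones, and obtains perfectly many inequivalent members of `A`. So all but
finitely many labels of each member have `F`-classes which consist of countably many `E`-classes.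

The construction of `F`, and Silver's theorem for Borel equivalence relations, are taken from the
starting files `Pool.Agent.N649.WL.Main` and `Pool.Agent.H579R3`.
-/

namespace Pool.Agent.Results.MP_5607ba_lc.FinitelyManyOrbits

open MeasureTheory Set

/-- There are perfectly many members of `V`, pairwise not in the relation `R`: a Borel map from the
Cantor space to `V`. -/
def Perfectly {Y : Type} [MeasurableSpace Y] (R : Y → Y → Prop) (V : Set Y) : Prop :=
  ∃ f : (ℕ → Bool) → Y, Measurable f ∧ (∀ b, f b ∈ V) ∧ ∀ b b', b ≠ b' → ¬ R (f b) (f b')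

/-- Every `R`-invariant Borel set contained in `Z` meets countably many classes of `R`, or has
perfectly many pairwise inequivalent members. -/
def Dichotomic {Y : Type} [MeasurableSpace Y] (R : Y → Y → Prop) (Z : Set Y) : Prop :=
  ∀ C : Set Y, MeasurableSet C → C ⊆ Z → (∀ y ∈ C, ∀ z, R y z → z ∈ C) →
    (∃ S ⊆ C, S.Countable ∧ ∀ y ∈ C, ∃ z ∈ S, R y z) ∨ Perfectly R C

/-- `I σ y y'` says that the permutation `σ` of the set `J` of places is an isomorphism from `y`
to `y'`. The labelled structures `p` and `q` are isomorphic, the labels being read up to `E`. -/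
def LabelIso {X Y J : Type} (I : Equiv.Perm J → Y → Y → Prop) (E : X → X → Prop)
    (p q : Y × (J → X)) : Prop :=
  ∃ σ : Equiv.Perm J, I σ p.1 q.1 ∧ ∀ j, E (p.2 j) (q.2 (σ j))

/-- `x` and `x'` are in the same orbit of `G`. -/
def Orbit (G : Type) {X : Type} [SMul G X] (x x' : X) : Prop := ∃ g : G, g • x = x'

/-- The sequences `y` and `z` are in the same orbit of the wreath product of `G` and `Sym(ℕ)`. -/
def SeqOrbit (G : Type) {X : Type} [SMul G X] (y z : ℕ → X) : Prop :=
  ∃ (σ : Equiv.Perm ℕ) (g : ℕ → G), ∀ n, z (σ n) = g n • y n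

/-- **Theorem.** -/
theorem result :
    -- sequences of orbits of an arbitrary Polish group
    (∀ (G X : Type) [TopologicalSpace G] [Group G] [IsTopologicalGroup G] [PolishSpace G]
      [MeasurableSpace G] [BorelSpace G] [MeasurableSpace X] [StandardBorelSpace X]
      [MulAction G X] [MeasurableSMul₂ G X] (Z : Set X), MeasurableSet Z →
      (∀ x ∈ Z, ∀ x', Orbit G x x' → x' ∈ Z) → Dichotomic (Orbit G) Z →
      ∀ A : Set (ℕ → X), MeasurableSet A → (∀ y ∈ A, ∀ z, SeqOrbit G y z → z ∈ A) →
        -- the dichotomy
        ((∀ y ∈ A, ∀ n, y n ∈ Z ∨ ∃ z ∈ A, {m | Orbit G (y n) (z m)}.Infinite) →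
          (∃ S ⊆ A, S.Countable ∧ ∀ y ∈ A, ∃ z ∈ S, SeqOrbit G y z) ∨
            Perfectly (SeqOrbit G) A) ∧
        -- the structure of all other members
        (Perfectly (SeqOrbit G) A ∨
        ∃ D : Set X, D.Countable ∧
          (∀ y ∈ A, {n | ∀ d ∈ D, ¬ Orbit G d (y n)}.Finite ∧
            ∀ n, y n ∈ Z → ∃ d ∈ D, Orbit G d (y n)) ∧
          ∃ S ⊆ A, S.Countable ∧ ∀ y ∈ A, (∀ n, ∃ d ∈ D, Orbit G d (y n)) →
            ∃ z ∈ S, SeqOrbit G y z)) ∧
    -- labels modulo an analytic equivalence relation, arbitrary structures of places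
    (∀ (X : Type) [TopologicalSpace X] [PolishSpace X] [MeasurableSpace X] [BorelSpace X]
      (E : X → X → Prop), Equivalence E → AnalyticSet {q : X × X | E q.1 q.2} →
      ∀ Z : Set X, MeasurableSet Z → (∀ x ∈ Z, ∀ x', E x x' → x' ∈ Z) → Dichotomic E Z →
      ∀ (Y J : Type) [MeasurableSpace Y] [StandardBorelSpace Y] [Countable J] [Nonempty J]
        (I : Equiv.Perm J → Y → Y → Prop), (∀ y, I 1 y y) →
      ∀ A : Set (Y × (J → X)), MeasurableSet A → (∀ p ∈ A, ∀ q, LabelIso I E p q → q ∈ A) →
        Perfectly (LabelIso I E) A ∨
        ∃ D : Set X, D.Countable ∧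
          (∀ p ∈ A, {j | ∀ d ∈ D, ¬ E d (p.2 j)}.Finite ∧ ∀ j, p.2 j ∈ Z → ∃ d ∈ D, E d (p.2 j)) ∧
          ∀ K : Set Y, (∀ p ∈ A, p.1 ∈ K) →
            Dichotomic (LabelIso I (· = ·)) {p : Y × (J → ℕ) | p.1 ∈ K} →
            ∃ S ⊆ A, S.Countable ∧ ∀ p ∈ A, (∀ j, ∃ d ∈ D, E d (p.2 j)) →
              ∃ q ∈ S, LabelIso I E p q) := by
  refine ⟨?_, ?_⟩
  · intro G X _ _ _ _ _ _ _ _ _ _ Z hZ hZi hX A hA hinv
    let _ := upgradeStandardBorel X
    have h1 : Equivalence (Orbit G : X → X → Prop) := Pool.Agent.N649.WL.orb_equiv G
    have h2 : AnalyticSet {q : X × X | Orbit G q.1 q.2} := Pool.Agent.N649.WL.orb_ana G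
    have hs : ∀ y z : ℕ → X, SeqOrbit G y z ↔
        ∃ σ : Equiv.Perm ℕ, ∀ n, Orbit G (y n) (z (σ n)) := by
      intro y z
      constructor
      · rintro ⟨σ, g, h⟩
        exact ⟨σ, fun n => ⟨g n, (h n).symm⟩⟩
      · rintro ⟨σ, h⟩
        choose g hg using h
        exact ⟨σ, g, fun n => (hg n).symm⟩
    have main : Perfectly (SeqOrbit G) A ∨
        ∃ D : Set X, D.Countable ∧
          (∀ y ∈ A, {n | ∀ d ∈ D, ¬ Orbit G d (y n)}.Finite ∧
            ∀ n, y n ∈ Z → ∃ d ∈ D, Orbit G d (y n)) ∧
          ∃ S ⊆ A, S.Countable ∧ ∀ y ∈ A, (∀ n, ∃ d ∈ D, Orbit G d (y n)) →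
            ∃ z ∈ S, SeqOrbit G y z := by
      rcases Pool.Agent.U105.LB.seq3 h1 h2 Z hZ hZi hX hA
        (fun p hp q h => hinv p hp q ((hs p q).2 h)) with
        ⟨h, k1, k2, k3⟩ | ⟨D, hD, hD2, S, k1, k2, k3⟩
      · exact Or.inl ⟨h, k1, k2, fun b b' hb hc => k3 b b' hb ((hs _ _).1 hc)⟩
      · refine Or.inr ⟨D, hD, hD2, S, k1, k2, fun p hp hr => ?_⟩
        obtain ⟨q, hq, h⟩ := k3 p hp hr
        exact ⟨q, hq, (hs p q).2 h⟩
    refine ⟨fun hrep => ?_, main⟩
    rcases main with h | ⟨D, -, hD2, S, k1, k2, k3⟩
    · exact Or.inr h
    · refine Or.inl ⟨S, k1, k2, fun y hy => k3 y hy fun n => ?_⟩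
      rcases hrep y hy n with hz | ⟨z, hz, hinf⟩
      · exact (hD2 y hy).2 n hz
      · obtain ⟨m, hm, hm'⟩ := hinf.exists_notMem_finite (hD2 z hz).1
        simp only [mem_setOf_eq, not_forall, not_not] at hm hm'
        obtain ⟨d, hd, hdm⟩ := hm'
        exact ⟨d, hd, h1.trans hdm (h1.symm hm)⟩
  · intro X _ _ _ _ E hE hEa Z hZ hZi hX Y J _ _ _ _ I hI A hA hinv
    let _ := upgradeStandardBorel Y
    exact Pool.Agent.U105.LB.main3 I hI hE hEa Z hZ hZi hX hA hinv

end Pool.Agent.Results.MP_5607ba_lc.FinitelyManyOrbits
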