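import Pool.Agent.U105.LB.Fin

set_option autoImplicit false

/-!
# Pieces over finite sets: all but finitely many are in a countable list

Let `Sym(ℕ)` act on the structures with universe `ℕ` in a countable relational language, with
relations of arbitrary arities, and let `B` be an arbitrary invariant Borel set. Remove finitely many
elements from a structure, but remember their relations with the other elements; the structure falls
into pieces.

**Theorem.** Either `B` contains a perfect set of pairwise nonisomorphic structures, or there is a
COUNTABLE list `D` of pieces such that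
(a) for every member of `B` and every finite set of its elements, all but finitely many pieces over this
set are isomorphic, over the set, to pieces in the list;
(b) only countably many nonisomorphic members of `B` have, for a suitable finite set, all their pieces
in the list.
(Since `B` is invariant, we may assume that the finite set consists of the first `n` elements.)

In particular, by (a) every piece which is isomorphic to infinitely many pieces of some member of `B`
is in the list. So `B` contains a perfect set of pairwise nonisomorphic structures, or only countably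
many nonisomorphic structures each piece of which, for a suitable finite set, is isomorphic to
infinitely many pieces of some member of `B`. In the starting result `MP_5607ba_lc.RepeatablePieces` each
piece has to be a piece of a structure `d` such that the free amalgam of infinitely many copies of `d`
belongs to `B` (there the perfect set is found among these structures).

Proof. Isomorphism of pieces is an analytic equivalence relation `E`. The set `A` of all sequences of
pieces whose free amalgam is in `B` is Borel (it is analytic and coanalytic) and closed under replacing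
pieces by isomorphic ones. One applies the theorem on families of classes of analytic equivalence
relations behind `MP_5607ba_lc.FinitelyManyOrbits` to `A`, and lifts perfect families of sequences of
pieces to structures by Silver's theorem.

The elimination of finitely many named elements (`Pool.Agent.H579R3.VR`), the dichotomy for
structures with components from a countable list (`Pool.Agent.H579R3.VP`) and the translation between
pieces and components (`Pool.Agent.R529.AM`) are taken from starting files.
-/

namespace Pool.Agent.Results.MP_5607ba_lc.FinitelyManyPieces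

open MeasureTheory Set

/-- Structures with universe `ℕ`; the relation `i` has arity `a i`. -/
abbrev Str (a : ℕ → ℕ) : Type := (i : ℕ) → (Fin (a i) → ℕ) → Bool

/-- `σ` is an isomorphism from `x` to `y`. -/
def IsIso {a : ℕ → ℕ} (σ : Equiv.Perm ℕ) (x y : Str a) : Prop :=
  ∀ (i : ℕ) (t : Fin (a i) → ℕ), x i t = y i (fun k => σ (t k))

/-- `u` and `v` do not belong to the first `n` elements and occur together in a tuple for which
one of the relations holds. -/
def Linked {a : ℕ → ℕ} (n : ℕ) (x : Str a) (u v : ℕ) : Prop :=
  n ≤ u ∧ n ≤ v ∧ ∃ (i : ℕ) (t : Fin (a i) → ℕ), x i t = true ∧ u ∈ range t ∧ v ∈ range t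

/-- The piece of `x` over the first `n` elements which contains `u`: the elements which can be
reached from `u` by links which avoid the first `n` elements. -/
def piece {a : ℕ → ℕ} (n : ℕ) (x : Str a) (u : ℕ) : Set ℕ :=
  {v | Relation.ReflTransGen (Linked n x) u v}

/-- The piece of `u` in `x` and the piece of `v` in `y` are isomorphic over the first `n` elements:
there is an isomorphism between the substructures on these pieces together with the first `n`
elements, which is the identity on the first `n` elements. -/
def SamePiece {a : ℕ → ℕ} (n : ℕ) (x : Str a) (u : ℕ) (y : Str a) (v : ℕ) : Prop :=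
  ∃ g : ℕ → ℕ, BijOn g (piece n x u) (piece n y v) ∧ (∀ j < n, g j = j) ∧
    ∀ (i : ℕ) (t : Fin (a i) → ℕ), (∀ k, t k < n ∨ t k ∈ piece n x u) →
      x i t = y i (fun k => g (t k))

/-- The piece of `u` in `x` over the first `n` elements is isomorphic to a piece in the list `D`. -/
def Listed {a : ℕ → ℕ} (D : Set (Str a × ℕ)) (n : ℕ) (x : Str a) (u : ℕ) : Prop :=
  ∃ d ∈ D, n ≤ d.2 ∧ SamePiece n x u d.1 d.2

theorem giso_iff {a : ℕ → ℕ} {x y : Str a} : (∃ σ, IsIso σ x y) ↔
    Pool.Agent.H623R2.VE.GIso (Pool.Agent.H623R2.VE.toI x) (Pool.Agent.H623R2.VE.toI y) :=
  Pool.Agent.R529.AM.iso_iff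

/-- **Theorem.** -/
theorem result (a : ℕ → ℕ) (B : Set (Str a)) (hB : MeasurableSet B)
    (hi : ∀ x ∈ B, ∀ y σ, IsIso σ x y → y ∈ B) :
    (∃ f : (ℕ → Bool) → Str a, Continuous f ∧ (∀ b, f b ∈ B) ∧
      ∀ b b', (∃ σ, IsIso σ (f b) (f b')) → b = b') ∨
    ∃ D : Set (Str a × ℕ), D.Countable ∧
      (∀ n, ∀ x ∈ B, ∃ s : Finset ℕ, ∀ u, n ≤ u → Listed D n x u ∨
        ∃ v ∈ s, n ≤ v ∧ u ∈ piece n x v) ∧
      ∃ S : Set (Str a), S.Countable ∧ ∀ x ∈ B, ∀ n, (∀ u, n ≤ u → Listed D n x u) →
        ∃ x' ∈ S, ∃ σ, IsIso σ x x' := by
  rcases Pool.Agent.U105.LB.pieces3 B hB (fun x y h hx => by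
      obtain ⟨σ, hσ⟩ := giso_iff.2 h
      exact hi x hx y σ hσ) with ⟨f, f1, f2, f3⟩ | ⟨D, hD, h1, S, hS, hS2⟩
  · exact Or.inl ⟨f, f1, f2, fun b b' h => f3 b b' (giso_iff.1 h)⟩
  · refine Or.inr ⟨D, hD, h1, S, hS, fun x hx n h => ?_⟩
    obtain ⟨x', hx', h⟩ := hS2 x hx n h
    exact ⟨x', hx', giso_iff.2 h⟩

end Pool.Agent.Results.MP_5607ba_lc.FinitelyManyPieces
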